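import Pool.Agent.helper96.PP2.SpecA

set_option autoImplicit false

namespace Pool.Agent.PP2

/-- The action of a group of automorphisms on the dual. -/
@[reducible] def SBM_act (p : ℕ) (A : Type) [AddCommGroup A] (H : Subgroup (AddMonoid.End A)ˣ) :
    MulAction H (A →+ Fp p) where
  smul h ψ := ψ.comp ((((h⁻¹ : H) : (AddMonoid.End A)ˣ) : AddMonoid.End A) : A →+ A)
  one_smul ψ := by
    apply AddMonoidHom.ext
    intro a
    show ψ (((((1 : H)⁻¹ : H) : (AddMonoid.End A)ˣ) : AddMonoid.End A) a) = ψ a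
    rw [inv_one]
    rfl
  mul_smul g h ψ := by
    apply AddMonoidHom.ext
    intro a
    show ψ (((((g * h)⁻¹ : H) : (AddMonoid.End A)ˣ) : AddMonoid.End A) a) =
      ψ ((((h⁻¹ : H) : (AddMonoid.End A)ˣ) : AddMonoid.End A) ((((g⁻¹ : H) : (AddMonoid.End A)ˣ) : AddMonoid.End A) a))
    rw [mul_inv_rev]
    rfl

theorem SBM_aux (p : ℕ) [Fact p.Prime] (A : Type) [AddCommGroup A] [Module (ZMod p) A] (a : A) (ha : a ≠ 0) :
    ∃ ψ : A →+ ZMod p, ψ a ≠ 0 := by
  obtain ⟨i, hi⟩ : ∃ i, (Module.Basis.ofVectorSpace (ZMod p) A).repr a i ≠ 0 := by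
    by_contra hcon
    push Not at hcon
    apply ha
    apply (Module.Basis.ofVectorSpace (ZMod p) A).repr.map_eq_zero_iff.1
    exact Finsupp.ext hcon
  exact ⟨((Module.Basis.ofVectorSpace (ZMod p) A).coord i).toAddMonoidHom, hi⟩

theorem SBM_functional (p : ℕ) (hp : p.Prime) (A : Type) [AddCommGroup A] [Nontrivial A]
    (hA : ∀ a : A, p • a = 0) : ∃ ψ : A →+ Fp p, ψ ≠ 0 := by
  have : Fact p.Prime := ⟨hp⟩
  obtain ⟨a, ha⟩ := exists_ne (0 : A)
  obtain ⟨ψ, hψ⟩ := @SBM_aux p _ A _ (AddCommGroup.zmodModule hA) a ha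
  refine ⟨ψ, fun h0 => hψ ?_⟩
  have := DFunLike.congr_fun h0 a
  exact this

theorem SBM_row : SBM_stmt := by
  intro p G _ _ _ A _ _ hp hG hfin hnt hA hsm
  have : Fact p.Prime := ⟨hp⟩
  obtain ⟨ρ, hρ⟩ : ∃ ρ : G →* (AddMonoid.End A)ˣ, ∀ g a, ((ρ g : (AddMonoid.End A)ˣ) : AddMonoid.End A) a = g • a :=
    ⟨(DistribMulAction.toAddMonoidEnd G A).toHomUnits, fun _ _ => rfl⟩
  have hker : (ρ.ker : Set G) = ⋂ a : A, {g : G | g • a = a} := by
    ext g
    simp only [SetLike.mem_coe, MonoidHom.mem_ker, Set.mem_iInter, Set.mem_ofPred_eq]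
    constructor
    · intro h a
      rw [← hρ, h]
      rfl
    · intro h
      apply Units.ext
      apply AddMonoidHom.ext
      intro a
      exact (hρ g a).trans (h a)
  have hopen : IsOpen (ρ.ker : Set G) := by
    rw [hker]
    exact isOpen_iInter_of_finite hsm
  obtain ⟨k, hk⟩ := hG ρ.ker hopen inferInstance
  have hP : IsPGroup p ρ.range := by
    apply IsPGroup.of_card (n := k)
    rw [← hk, Subgroup.index_ker]
  let _ : MulAction ρ.range (A →+ Fp p) := SBM_act p A ρ.range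
  have hfinF : Finite (Fp p) := inferInstanceAs (Finite (ZMod p))
  have hfinD : Finite (A →+ Fp p) := by
    apply Finite.of_injective (fun f : A →+ Fp p => (f : A → Fp p))
    intro f g h
    exact AddMonoidHom.ext (fun a => congrFun h a)
  obtain ⟨ψ0, hψ0⟩ := SBM_functional p hp A hA
  have hpD : p ∣ Nat.card (A →+ Fp p) := by
    have h1 : addOrderOf ψ0 = p := by
      apply addOrderOf_eq_prime _ hψ0
      apply AddMonoidHom.ext
      intro a
      show p • ψ0 a = 0
      rw [← map_nsmul, hA, map_zero]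
    have h2 := addOrderOf_dvd_natCard ψ0
    rw [h1] at h2
    exact h2
  have h0 : (0 : A →+ Fp p) ∈ MulAction.fixedPoints ρ.range (A →+ Fp p) := by
    intro h
    apply AddMonoidHom.ext
    intro a
    rfl
  obtain ⟨ψ, hψ, hne⟩ := hP.exists_fixed_point_of_prime_dvd_card_of_fixed_point (A →+ Fp p) hpD h0
  have hinv : ∀ (g : G) (a : A), ψ (g • a) = ψ a := by
    intro g a
    have h1 := hψ ⟨(ρ g)⁻¹, by rw [← map_inv]; exact ⟨g⁻¹, rfl⟩⟩
    have h2 := DFunLike.congr_fun h1 a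
    have h3 : ψ (((((ρ g)⁻¹)⁻¹ : (AddMonoid.End A)ˣ) : AddMonoid.End A) a) = ψ a := h2
    rw [inv_inv, hρ] at h3
    exact h3
  have hsurj : Function.Surjective ψ := by
    obtain ⟨a, ha⟩ : ∃ a, ψ a ≠ 0 := by
      by_contra hcon
      push Not at hcon
      exact hne (AddMonoidHom.ext fun a => (hcon a).symm)
    intro d
    obtain ⟨c, hc⟩ : ∃ c : ZMod p, c = ψ a := ⟨_, rfl⟩
    have hc0 : c ≠ 0 := by rw [hc]; exact ha
    obtain ⟨d', hd'⟩ : ∃ d' : ZMod p, d' = d := ⟨_, rfl⟩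
    refine ⟨(d' / c).val • a, ?_⟩
    rw [map_nsmul]
    have h5 : (d' / c).val • c = d' := by
      rw [nsmul_eq_mul, ZMod.natCast_zmod_val, div_mul_cancel₀ _ hc0]
    have h6 : (d' / c).val • ψ a = (d' / c).val • c := by
      rw [hc]
      rfl
    exact h6.trans (h5.trans hd')
  refine ⟨ψ.ker, inferInstance,
    { smul := fun g x => ⟨g • x.1, by
        rw [AddMonoidHom.mem_ker, hinv]
        exact x.2⟩
      one_smul := fun x => Subtype.ext (one_smul G x.1)
      mul_smul := fun g h x => Subtype.ext (mul_smul g h x.1)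
      smul_zero := fun g => Subtype.ext (smul_zero g)
      smul_add := fun g x y => Subtype.ext (smul_add g x.1 y.1) },
    ψ.ker.subtype, ψ, Subtype.val_injective, hsurj, fun g a => rfl, hinv, fun a => ?_⟩
  constructor
  · intro h
    exact ⟨⟨a, h⟩, rfl⟩
  · rintro ⟨a', rfl⟩
    exact a'.2

end Pool.Agent.PP2
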